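import Pool.Agent.Helper40.AC.Stmts

/-! Packet AC-P18: the conormal module is the range of `p`. -/

set_option autoImplicit false

open scoped Topology Matrix TensorProduct

namespace Pool.Agent.Helper86.AC

open Pool.Agent.Helper40.AC

section lin

/-- independent vectors have a nonzero minor -/
theorem exists_minor {q : Type} {v w : q → ℂ} (h : LinearIndependent ℂ ![v, w]) :
    ∃ i j, v i * w j - v j * w i ≠ 0 := by
  by_contra hcon
  push Not at hcon
  rw [LinearIndependent.pair_iff] at h
  have hv : v = 0 := by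
    funext i
    have h1 := h (-w i) (v i) (by
      funext j
      have := hcon i j
      simp only [Pi.add_apply, Pi.smul_apply, smul_eq_mul, Pi.zero_apply]
      linear_combination this)
    exact h1.2
  have h2 := h 1 0 (by rw [hv]; simp)
  exact one_ne_zero h2.1

/-- an idempotent of trace two: three vectors in its range have vanishing minors -/
theorem minor3 {q : Type} [Fintype q] [DecidableEq q] {p : Matrix q q ℂ} (hp : p * p = p)
    (htr : p.trace = 2) (v : Fin 3 → q → ℂ) (hv : ∀ a, p *ᵥ v a = v a) (s : Fin 3 → q) :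
    (Matrix.of fun a b => v a (s b)).det = 0 := by
  by_contra hdet
  have h1 : LinearIndependent ℂ (fun a : Fin 3 => (Matrix.of fun a b => v a (s b)) a) :=
    Matrix.linearIndependent_rows_of_det_ne_zero hdet
  have h2 : LinearIndependent ℂ v :=
    LinearIndependent.of_comp (LinearMap.funLeft ℂ ℂ s) h1
  have hmem : ∀ a, v a ∈ LinearMap.range (Matrix.toLin' p) := by
    intro a
    exact ⟨v a, by rw [Matrix.toLin'_apply, hv]⟩
  have h3 : LinearIndependent ℂ
      (fun a : Fin 3 => (⟨v a, hmem a⟩ : LinearMap.range (Matrix.toLin' p))) :=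
    LinearIndependent.of_comp (LinearMap.range (Matrix.toLin' p)).subtype h2
  have h4 := h3.fintype_card_le_finrank
  have hid : IsIdempotentElem (Matrix.toLin' p) := by
    show Matrix.toLin' p * Matrix.toLin' p = Matrix.toLin' p
    rw [Module.End.mul_eq_comp, ← Matrix.toLin'_mul, hp]
  have h5 : (2 : ℂ) = (Module.finrank ℂ (LinearMap.range (Matrix.toLin' p)) : ℂ) := by
    rw [← (LinearMap.IsIdempotentElem.isProj_range _ hid).trace, Matrix.trace_toLin'_eq, htr]
  have h6 : Module.finrank ℂ (LinearMap.range (Matrix.toLin' p)) = 2 := by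
    exact_mod_cast h5.symm
  rw [h6, Fintype.card_fin] at h4
  omega

end lin

section gen

variable {P : Type} [CommRing P] [Algebra P BB]

theorem comb {J : Ideal P} {F₁ F₂ : J} {e : P}
    (he : ∀ F : J, e * (F : P) ∈ Ideal.span {(F₁ : P), (F₂ : P)}) (ξ : BB ⊗[P] J) :
    ∃ c₁ c₂ : BB, (algebraMap P BB e) • ξ = c₁ ⊗ₜ[P] F₁ + c₂ ⊗ₜ[P] F₂ := by
  induction ξ using TensorProduct.induction_on with
  | zero => exact ⟨0, 0, by simp⟩
  | tmul b F =>
    obtain ⟨a₁, a₂, h⟩ := Ideal.mem_span_pair.1 (he F)
    have h1 : e • F = a₁ • F₁ + a₂ • F₂ := by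
      apply Subtype.ext
      simp only [Submodule.coe_smul, Submodule.coe_add, smul_eq_mul]
      exact h.symm
    refine ⟨algebraMap P BB a₁ * b, algebraMap P BB a₂ * b, ?_⟩
    rw [TensorProduct.smul_tmul', smul_eq_mul, ← Algebra.smul_def, ← Algebra.smul_def,
      ← Algebra.smul_def, TensorProduct.smul_tmul, h1, TensorProduct.tmul_add,
      TensorProduct.smul_tmul, TensorProduct.smul_tmul]
  | add x y hx hy =>
    obtain ⟨c₁, c₂, h⟩ := hx
    obtain ⟨d₁, d₂, h'⟩ := hy
    refine ⟨c₁ + d₁, c₂ + d₂, ?_⟩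
    rw [smul_add, h, h', TensorProduct.add_tmul, TensorProduct.add_tmul]
    abel

theorem theta_gen (hI : S_IDEAL) {q : Type} [Fintype q] [DecidableEq q] (p : Matrix q q BB)
    (hp : p * p = p) (htr : p.trace = 2) (J : Ideal P) (ν : J →ₗ[P] (q → BB))
    (mem : ∀ F, p *ᵥ (ν F) = ν F)
    (loc : ∀ x : Ang, ∃ F₁ F₂ : J,
      LinearIndependent ℂ ![fun i => evx x (ν F₁ i), fun i => evx x (ν F₂ i)] ∧
      ∃ e : P, evx x (algebraMap P BB e) ≠ 0 ∧
        ∀ F : J, e * (F : P) ∈ Ideal.span {(F₁ : P), (F₂ : P)}) :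
    Nonempty ((BB ⊗[P] J) ≃ₗ[BB] LinearMap.range (Matrix.toLin' p)) := by
  set θ : (BB ⊗[P] J) →ₗ[BB] (q → BB) := ν.liftBaseChange BB with hθ
  have hθt : ∀ (b : BB) (F : J), θ (b ⊗ₜ[P] F) = b • ν F := fun b F => rfl
  have hθp : ∀ ξ, p *ᵥ (θ ξ) = θ ξ := by
    intro ξ
    induction ξ using TensorProduct.induction_on with
    | zero => rw [map_zero, Matrix.mulVec_zero]
    | tmul b F => rw [hθt, Matrix.mulVec_smul, mem]
    | add x y hx hy => rw [map_add, Matrix.mulVec_add, hx, hy]
  have hrange : ∀ ξ, θ ξ ∈ LinearMap.range (Matrix.toLin' p) := fun ξ =>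
    ⟨θ ξ, by rw [Matrix.toLin'_apply, hθp]⟩
  -- injectivity
  have hinj : ∀ ξ, θ ξ = 0 → ξ = 0 := by
    intro ξ hξ
    have htop : LinearMap.ker (LinearMap.toSpanSingleton BB (BB ⊗[P] J) ξ) = (⊤ : Ideal BB) := by
      refine hI _ fun x => ?_
      obtain ⟨F₁, F₂, hind, e, he, hspan⟩ := loc x
      obtain ⟨i, j, hij⟩ := exists_minor hind
      obtain ⟨c₁, c₂, hc⟩ := comb hspan ξ
      have h0 : c₁ • ν F₁ + c₂ • ν F₂ = 0 := by
        rw [← hθt, ← hθt, ← map_add, ← hc, map_smul, hξ, smul_zero]
      have hi := congrFun h0 i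
      have hj := congrFun h0 j
      simp only [Pi.add_apply, Pi.smul_apply, smul_eq_mul, Pi.zero_apply] at hi hj
      set d : BB := ν F₁ i * ν F₂ j - ν F₁ j * ν F₂ i with hd
      have hd1 : d * c₁ = 0 := by
        rw [hd]
        linear_combination ν F₂ j * hi - ν F₂ i * hj
      have hd2 : d * c₂ = 0 := by
        rw [hd]
        linear_combination ν F₁ i * hj - ν F₁ j * hi
      refine ⟨d * algebraMap P BB e, ?_, ?_⟩
      · rw [LinearMap.mem_ker, LinearMap.toSpanSingleton_apply, mul_smul, hc, smul_add,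
          TensorProduct.smul_tmul', TensorProduct.smul_tmul', smul_eq_mul, smul_eq_mul, hd1, hd2,
          TensorProduct.zero_tmul, TensorProduct.zero_tmul, add_zero]
      · rw [map_mul]
        refine mul_ne_zero ?_ he
        rw [hd, map_sub, map_mul, map_mul]
        exact hij
    have h1 : (1 : BB) ∈ LinearMap.ker (LinearMap.toSpanSingleton BB (BB ⊗[P] J) ξ) := by
      rw [htop]
      exact Submodule.mem_top
    rw [LinearMap.mem_ker, LinearMap.toSpanSingleton_apply, one_smul] at h1
    exact h1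
  -- surjectivity
  have hsurj : ∀ w : q → BB, p *ᵥ w = w → w ∈ LinearMap.range θ := by
    intro w hw
    have htop : (LinearMap.range θ).comap (LinearMap.toSpanSingleton BB (q → BB) w)
        = (⊤ : Ideal BB) := by
      refine hI _ fun x => ?_
      obtain ⟨F₁, F₂, hind, -⟩ := loc x
      obtain ⟨i, j, hij⟩ := exists_minor hind
      set d : BB := ν F₁ i * ν F₂ j - ν F₁ j * ν F₂ i with hd
      refine ⟨d, ?_, ?_⟩
      · refine Submodule.mem_comap.2 ⟨(w i * ν F₂ j - w j * ν F₂ i) ⊗ₜ[P] F₁
          + (ν F₁ i * w j - ν F₁ j * w i) ⊗ₜ[P] F₂, ?_⟩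
        rw [map_add, hθt, hθt, LinearMap.toSpanSingleton_apply]
        funext k
        simp only [Pi.add_apply, Pi.smul_apply, smul_eq_mul]
        apply BB.ext
        intro y
        -- the evaluation at `y`
        set py : Matrix q q ℂ := p.map (evx y) with hpy
        have hpy2 : py * py = py := by
          rw [hpy, ← Matrix.map_mul, hp]
        have hpyt : py.trace = 2 := by
          have h1 : py.trace = evx y p.trace := by
            rw [hpy, Matrix.trace, Matrix.trace, map_sum]
            rfl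
          rw [h1, htr]
          exact map_ofNat (evx y) 2
        have hev : ∀ u : q → BB, p *ᵥ u = u → py *ᵥ (fun i => evx y (u i)) = fun i => evx y (u i) := by
          intro u hu
          funext l
          have h1 := congrArg (evx y) (congrFun hu l)
          rw [← h1]
          simp only [Matrix.mulVec, dotProduct, map_sum, map_mul, hpy, Matrix.map_apply]
        have h3 := minor3 hpy2 hpyt
          ![fun i => evx y (w i), fun i => evx y (ν F₁ i), fun i => evx y (ν F₂ i)]
          (by
            intro a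
            fin_cases a
            · exact hev w hw
            · exact hev _ (mem F₁)
            · exact hev _ (mem F₂)) ![k, i, j]
        rw [Matrix.det_fin_three] at h3
        have h4 : (w k).fn y * (ν F₁ i).fn y * (ν F₂ j).fn y
            - (w k).fn y * (ν F₁ j).fn y * (ν F₂ i).fn y
            - (w i).fn y * (ν F₁ k).fn y * (ν F₂ j).fn y
            + (w i).fn y * (ν F₁ j).fn y * (ν F₂ k).fn y
            + (w j).fn y * (ν F₁ k).fn y * (ν F₂ i).fn y
            - (w j).fn y * (ν F₁ i).fn y * (ν F₂ k).fn y = 0 := by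
          rw [← h3]
          simp only [Matrix.of_apply]
          simp [evx_apply]
        rw [hd]
        simp only [BB.fn_add, BB.fn_mul, BB.fn_sub]
        linear_combination -h4
      · rw [hd, map_sub, map_mul, map_mul]
        exact hij
    have h1 : (1 : BB) ∈ (LinearMap.range θ).comap (LinearMap.toSpanSingleton BB (q → BB) w) := by
      rw [htop]
      exact Submodule.mem_top
    rw [Submodule.mem_comap, LinearMap.toSpanSingleton_apply, one_smul] at h1
    exact h1
  refine ⟨LinearEquiv.ofBijective (θ.codRestrict _ hrange) ⟨?_, ?_⟩⟩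
  · rw [injective_iff_map_eq_zero]
    intro ξ hξ
    apply hinj
    have := congrArg Subtype.val hξ
    exact this
  · rintro ⟨w, u, rfl⟩
    have hw : p *ᵥ (Matrix.toLin' p u) = Matrix.toLin' p u := by
      rw [Matrix.toLin'_apply, Matrix.mulVec_mulVec, hp]
    obtain ⟨ξ, hξ⟩ := hsurj _ hw
    exact ⟨ξ, Subtype.ext hξ⟩

end gen

theorem theta_ok (h : S_IDEAL) : S_THETA := by
  intro q _ _ p hp htr A
  letI := algK A.κ
  have hmap : ∀ f : MvPolynomial (Fin 8) ℂ, algebraMap (MvPolynomial (Fin 8) ℂ) BB f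
      = (MvPolynomial.aeval A.κ f : BB) := fun f => rfl
  let ν : A.J →ₗ[MvPolynomial (Fin 8) ℂ] (q → BB) :=
    { toFun := A.ν
      map_add' := A.add
      map_smul' := by
        intro f F
        rw [A.smul, ← hmap, algebraMap_smul]
        rfl }
  refine theta_gen h p hp htr A.J ν A.mem ?_
  intro x
  obtain ⟨F₁, F₂, hind, e, he, hs⟩ := A.loc x
  exact ⟨F₁, F₂, hind, e, he, hs⟩

end Pool.Agent.Helper86.AC
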